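import Pool.Agent.Helper82.IW.Goals

/-!
# Packet TPD of project IW (MP_f7b570_an): derivatives of trigonometric polynomials
-/

open Complex MeasureTheory Set Filter Topology
open scoped ContDiff ComplexConjugate

namespace Pool.Agent.Helper83.IW

open Pool.Agent.Helper82.IW

/-- the exponent -/
noncomputable def Lr (k : ℤ × ℤ) : ℂ →L[ℝ] ℝ :=
  (2 * Real.pi * (k.1 : ℝ)) • Complex.reCLM + (2 * Real.pi * (k.2 : ℝ)) • Complex.imCLM

/-- the exponent, complex valued -/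
noncomputable def Lk (k : ℤ × ℤ) : ℂ →L[ℝ] ℂ := (Lr k).smulRight I

theorem Lk_apply (k : ℤ × ℤ) (z : ℂ) :
    Lk k z = ((2 * Real.pi * ((k.1 : ℝ) * z.re + (k.2 : ℝ) * z.im) : ℝ) : ℂ) * I := by
  have h : Lr k z = 2 * Real.pi * ((k.1 : ℝ) * z.re + (k.2 : ℝ) * z.im) := by
    simp [Lr]
    ring
  show (Lr k z) • I = _
  rw [h, Complex.real_smul]

theorem ex_eq (k : ℤ × ℤ) : ex k = fun z => Complex.exp (Lk k z) := by
  funext z
  rw [Lk_apply]
  rfl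

theorem ex_hasFDerivAt (k : ℤ × ℤ) (z : ℂ) : HasFDerivAt (ex k) (ex k z • Lk k) z := by
  have h := ((Lk k).hasFDerivAt (x := z)).cexp
  rw [ex_eq]
  exact h

theorem ex_contDiff (k : ℤ × ℤ) : ContDiff ℝ ∞ (ex k) := by
  rw [ex_eq]
  exact (Lk k).contDiff.cexp

theorem tp_eq (n : ℕ) (c : ℤ × ℤ → ℂ) : tp n c = fun z => ∑ k ∈ box n, c k * ex k z := rfl

theorem tp_hasFDerivAt (n : ℕ) (c : ℤ × ℤ → ℂ) (z : ℂ) :
    HasFDerivAt (tp n c) (∑ k ∈ box n, c k • (ex k z • Lk k)) z := by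
  rw [tp_eq]
  exact HasFDerivAt.fun_sum fun k _ => (ex_hasFDerivAt k z).const_mul (c k)

theorem tp_fderiv (n : ℕ) (c : ℤ × ℤ → ℂ) (z v : ℂ) :
    fderiv ℝ (tp n c) z v = tp n (fun k => Lk k v * c k) z := by
  rw [(tp_hasFDerivAt n c z).fderiv]
  simp only [tp, sum_apply, smul_apply, smul_eq_mul]
  refine Finset.sum_congr rfl fun k _ => ?_
  ring

theorem Lk_one (k : ℤ × ℤ) : Lk k 1 = 2 * (Real.pi : ℂ) * (k.1 : ℂ) * I := by
  rw [Lk_apply]
  push_cast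
  simp

theorem Lk_I (k : ℤ × ℤ) : Lk k I = 2 * (Real.pi : ℂ) * (k.2 : ℂ) * I := by
  rw [Lk_apply]
  push_cast
  simp

theorem dx_tp (n : ℕ) (c : ℤ × ℤ → ℂ) :
    dx (tp n c) = tp n (fun k => (2 * (Real.pi : ℂ) * (k.1 : ℂ) * I) * c k) := by
  funext z
  show fderiv ℝ (tp n c) z 1 = _
  rw [tp_fderiv]
  simp only [Lk_one]

theorem dy_tp (n : ℕ) (c : ℤ × ℤ → ℂ) :
    dy (tp n c) = tp n (fun k => (2 * (Real.pi : ℂ) * (k.2 : ℂ) * I) * c k) := by
  funext z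
  show fderiv ℝ (tp n c) z I = _
  rw [tp_fderiv]
  simp only [Lk_I]

theorem ex_per (k : ℤ × ℤ) : Per (ex k) := by
  intro z
  constructor
  · simp only [ex, Complex.add_re, Complex.add_im, Complex.one_re, Complex.one_im]
    rw [show ((2 * Real.pi * ((k.1 : ℝ) * (z.re + 1) + (k.2 : ℝ) * (z.im + 0)) : ℝ) : ℂ) * I =
      ((2 * Real.pi * ((k.1 : ℝ) * z.re + (k.2 : ℝ) * z.im) : ℝ) : ℂ) * I +
        (k.1 : ℂ) * (2 * (Real.pi : ℂ) * I) by push_cast; ring]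
    exact Complex.exp_periodic.int_mul k.1 _
  · simp only [ex, Complex.add_re, Complex.add_im, Complex.I_re, Complex.I_im]
    rw [show ((2 * Real.pi * ((k.1 : ℝ) * (z.re + 0) + (k.2 : ℝ) * (z.im + 1)) : ℝ) : ℂ) * I =
      ((2 * Real.pi * ((k.1 : ℝ) * z.re + (k.2 : ℝ) * z.im) : ℝ) : ℂ) * I +
        (k.2 : ℂ) * (2 * (Real.pi : ℂ) * I) by push_cast; ring]
    exact Complex.exp_periodic.int_mul k.2 _

theorem tp_SP (n : ℕ) (c : ℤ × ℤ → ℂ) : SP (tp n c) := by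
  constructor
  · rw [tp_eq]
    exact ContDiff.sum fun k _ => contDiff_const.mul (ex_contDiff k)
  · intro z
    constructor
    · show ∑ k ∈ box n, c k * ex k (z + 1) = ∑ k ∈ box n, c k * ex k z
      exact Finset.sum_congr rfl fun k _ => by rw [(ex_per k z).1]
    · show ∑ k ∈ box n, c k * ex k (z + I) = ∑ k ∈ box n, c k * ex k z
      exact Finset.sum_congr rfl fun k _ => by rw [(ex_per k z).2]

/-- Packet TPD. -/
theorem TPD : Pool.Agent.Helper82.IW.S_TPD := by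
  intro n c
  refine ⟨tp_SP n c, fun z => ?_, fun z => ?_⟩
  · simp only [hl, dx_tp, dy_tp]
    simp only [tp]
    rw [← Finset.sum_add_distrib, Finset.mul_sum]
    refine Finset.sum_congr rfl fun k _ => ?_
    linear_combination (2 * (Real.pi : ℂ) ^ 2 * ((k.1 : ℂ) ^ 2 + (k.2 : ℂ) ^ 2)) * c k * ex k z * I_sq
  · simp only [zb, dx_tp, dy_tp]
    simp only [tp]
    rw [← Finset.sum_sub_distrib, Finset.mul_sum, ← Finset.sum_add_distrib, Finset.mul_sum]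
    refine Finset.sum_congr rfl fun k _ => ?_
    linear_combination (2 * (Real.pi : ℂ) ^ 2 * ((k.1 : ℂ) ^ 2 - (k.2 : ℂ) ^ 2 + 2 * I * (k.1 : ℂ) * (k.2 : ℂ))) *
      c k * ex k z * I_sq + (2 * (Real.pi : ℂ) ^ 2 * (k.2 : ℂ) ^ 2) * c k * ex k z * I_sq

end Pool.Agent.Helper83.IW
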